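import Pool.Agent.P.MP_11624f_co.Del
import Pool.Agent.P.MP_11624f_co.Fold
import Pool.Agent.P.MP_11624f_co.Bonus
import Pool.Agent.P.MP_11624f_co.Red
import Pool.Agent.P.MP_11624f_co.Moves
import Pool.Agent.P.MP_11624f_co.Conf
import Pool.Agent.P.MP_11624f_co.Fix
import Pool.Agent.P.MP_11624f_co.Cls
import Pool.Agent.P.MP_11624f_co.Final
import Pool.Agent.P.MP_11624f_co.Init

set_option autoImplicit false

namespace Pool.Agent.Results.MP_11624f_co.Equality

theorem two_of_ncard {V : Type} [Finite V] (G : SimpleGraph V) (v : V) :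
    2 ≤ (G.neighborSet v).ncard ↔ ∃ a b : V, a ≠ b ∧ G.Adj v a ∧ G.Adj v b := by
  rw [show 2 ≤ (G.neighborSet v).ncard ↔ 1 < (G.neighborSet v).ncard from Iff.rfl,
    Set.one_lt_ncard_iff (Set.toFinite _)]
  exact ⟨fun ⟨a, b, h1, h2, h3⟩ => ⟨a, b, h3, h1, h2⟩, fun ⟨a, b, h3, h1, h2⟩ => ⟨a, b, h1, h2, h3⟩⟩

theorem block (T : Finset (Fin 5))
    (h : ∀ j : Fin 5, (j ∈ T ∨ ∃ k ∈ T, k = j + 1 ∨ j = k + 1) ∧
      (j ∈ T ∨ ∃ k ∈ T, k = j + 2 ∨ j = k + 2)) : 3 ≤ T.card := by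
  revert T; decide

/-- Disjoint five-cycles with step `s`. -/
def cyc (m : ℕ) (s : Fin 5) (hs : ∀ j : Fin 5, j ≠ j + s) : SimpleGraph (Fin (m * 5)) where
  Adj u v := (finProdFinEquiv.symm u).1 = (finProdFinEquiv.symm v).1 ∧
    ((finProdFinEquiv.symm v).2 = (finProdFinEquiv.symm u).2 + s ∨
      (finProdFinEquiv.symm u).2 = (finProdFinEquiv.symm v).2 + s)
  symm := ⟨fun _ _ h => ⟨h.1.symm, h.2.symm⟩⟩
  loopless := ⟨fun _ h => h.2.elim (hs _) (hs _)⟩

theorem cyc_deg (m : ℕ) (s : Fin 5) (hs : ∀ j : Fin 5, j ≠ j + s)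
    (h2 : ∀ j : Fin 5, j + s ≠ j - s) (v : Fin (m * 5)) :
    2 ≤ ((cyc m s hs).neighborSet v).ncard := by
  rw [two_of_ncard]
  obtain ⟨⟨i, j⟩, rfl⟩ := finProdFinEquiv.surjective v
  refine ⟨finProdFinEquiv (i, j + s), finProdFinEquiv (i, j - s), fun e => ?_, ?_, ?_⟩
  · exact h2 j (congrArg Prod.snd (finProdFinEquiv.injective e))
  · simp only [cyc, Equiv.symm_apply_apply, true_or, and_self]
  · simp only [cyc, Equiv.symm_apply_apply, sub_add_cancel, or_true, and_self]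

/-- The maximum of the simultaneous domination number over two factors of minimum degree at least
two on n vertices is at most 3n/5, with equality when 5 divides n. -/
theorem result : ∀ n : ℕ,
    (∀ F₁ F₂ : SimpleGraph (Fin n), (∀ v, 2 ≤ (F₁.neighborSet v).ncard) →
      (∀ v, 2 ≤ (F₂.neighborSet v).ncard) →
      ∃ S : Finset (Fin n), (∀ v ∉ S, (∃ u ∈ S, F₁.Adj v u) ∧ ∃ u ∈ S, F₂.Adj v u) ∧
        5 * S.card ≤ 3 * n) ∧
    (5 ∣ n → ∃ F₁ F₂ : SimpleGraph (Fin n), (∀ v, 2 ≤ (F₁.neighborSet v).ncard) ∧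
      (∀ v, 2 ≤ (F₂.neighborSet v).ncard) ∧
      ∀ S : Finset (Fin n), (∀ v ∉ S, (∃ u ∈ S, F₁.Adj v u) ∧ ∃ u ∈ S, F₂.Adj v u) →
        3 * n ≤ 5 * S.card) := by
  intro n
  refine ⟨fun F₁ F₂ h1 h2 => ?_, fun hn => ?_⟩
  · obtain ⟨S, a, b⟩ := Pool.Agent.P.MP_11624f_co.main n F₁ F₂
      (fun v => (two_of_ncard F₁ v).1 (h1 v)) (fun v => (two_of_ncard F₂ v).1 (h2 v))
    exact ⟨S, fun v hv => ⟨(b v).1.resolve_left hv, (b v).2.resolve_left hv⟩, a⟩
  · obtain ⟨m, rfl⟩ : ∃ m, n = m * 5 := ⟨n / 5, by omega⟩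
    refine ⟨cyc m 1 (by decide), cyc m 2 (by decide), cyc_deg m 1 _ (by decide),
      cyc_deg m 2 _ (by decide), fun S hS => ?_⟩
    have key : ∀ i : Fin m,
        3 ≤ (S.filter (fun v => (finProdFinEquiv.symm v).1 = i)).card := by
      intro i
      refine (block (Finset.univ.filter (fun j => finProdFinEquiv (i, j) ∈ S)) (fun j => ?_)).trans
        (Finset.card_le_card_of_injOn (fun j => finProdFinEquiv (i, j)) (fun j hj => ?_)
          (fun a _ b _ e => congrArg Prod.snd (finProdFinEquiv.injective e)))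
      · by_cases hj : finProdFinEquiv (i, j) ∈ S
        · simp [hj]
        · obtain ⟨⟨u, u1, u2⟩, w, w1, w2⟩ := hS _ hj
          obtain ⟨⟨a, b⟩, rfl⟩ := finProdFinEquiv.surjective u
          obtain ⟨⟨c, d⟩, rfl⟩ := finProdFinEquiv.surjective w
          simp only [cyc, Equiv.symm_apply_apply] at u2 w2
          obtain ⟨rfl, u2⟩ := u2
          obtain ⟨rfl, w2⟩ := w2
          exact ⟨Or.inr ⟨b, by simpa using u1, u2⟩, Or.inr ⟨d, by simpa using w1, w2⟩⟩
      · simp only [Finset.coe_filter, Finset.mem_univ, true_and, Set.mem_ofPred_eq] at hj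
        simp only [Finset.coe_filter, Set.mem_ofPred_eq, Equiv.symm_apply_apply, and_true]
        exact hj
    have h := Finset.card_eq_sum_card_fiberwise (s := S) (t := Finset.univ)
      (f := fun v => (finProdFinEquiv.symm v).1) (fun _ _ => Finset.mem_univ _)
    have h2 := Finset.sum_le_sum (s := Finset.univ) (fun i _ => key i)
    simp only [Finset.sum_const, Finset.card_univ, Fintype.card_fin, smul_eq_mul] at h2
    omega

end Pool.Agent.Results.MP_11624f_co.Equality
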