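import Pool.Agent.P.MP_11624f_co.Init

set_option autoImplicit false
open Finset

namespace Pool.Agent.Results.MP_11624f_co.MatchedLeaves
open Pool.Agent.P.MP_11624f_co Pool.Agent.P.MP_11624f_co.Ty

variable {V : Type} [DecidableEq V] [Fintype V]

theorem exists_one_match (G : SimpleGraph V) (M T : Set V) (p : V → V)
    (hp : ∀ v ∈ M, p v ∈ M ∧ p (p v) = v ∧ G.Adj v (p v))
    (hT : ∀ v ∈ T, v ∉ M ∧ ∃ a ∈ M, G.Adj v a ∧ G.Adj v (p a))
    (hG : ∀ v ∉ M ∪ T, ∃ a b, a ≠ b ∧ a ∉ M ∪ T ∧ b ∉ M ∪ T ∧ G.Adj v a ∧ G.Adj v b) :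
    ∃ Q : St V, One G Q ∧ (∀ v ∈ M, Q.ty v = K) ∧ ∀ v ∈ T, Q.ty v = F := by
  classical
  set R : Set V := (M ∪ T)ᶜ with hR
  obtain ⟨Q, h⟩ := exists_one (G.induce R) (by
    rintro ⟨v, hv⟩
    obtain ⟨a, b, ab, ha, hb, h1, h2⟩ := hG v hv
    exact ⟨⟨a, ha⟩, ⟨b, hb⟩, fun e => ab (congrArg Subtype.val e), h1, h2⟩)
  let up : (↥R → ↥R) → V → V := fun φ v => if hv : v ∈ R then (φ ⟨v, hv⟩).1 else p v
  let ty : V → Ty := fun v => if hv : v ∈ R then Q.ty ⟨v, hv⟩ else if v ∈ M then K else F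
  let mm : V → V → V := fun c v => if hc : c ∈ R then up (Q.m ⟨c, hc⟩) v else v
  have e1 : ∀ φ (x : ↥R), up φ x.1 = (φ x).1 := fun φ x => dif_pos x.2
  have e2 : ∀ x : ↥R, ty x.1 = Q.ty x := fun x => dif_pos x.2
  have e3 : ∀ c x : ↥R, mm c.1 x.1 = (Q.m c x).1 := fun c x => (dif_pos c.2).trans (e1 _ x)
  have e4 : ∀ v ∈ M, ty v = K := fun v hv =>
    (dif_neg (fun a => a (Or.inl hv))).trans (if_pos hv)
  have e5 : ∀ φ, ∀ v ∈ M, up φ v = p v := fun φ v hv => dif_neg (fun a => a (Or.inl hv))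
  have e6 : ∀ v ∈ T, ty v = F := fun v hv =>
    (dif_neg (fun a => a (Or.inr hv))).trans (if_neg (hT v hv).1)
  have lift : ∀ v, ty v ≠ K ∧ ty v ≠ F → ∃ x : ↥R, x.1 = v := fun v hv =>
    ⟨⟨v, fun a => a.elim (fun b => hv.1 (e4 v b)) (fun b => hv.2 (e6 v b))⟩, rfl⟩
  refine ⟨⟨ty, fun _ => false, id, up Q.mate, up Q.f, up Q.g, up Q.l, up Q.r, up Q.cid, mm⟩,
    ⟨fun v => ?_, fun s hs => ?_, fun e he => ?_, fun c hc => ?_,
      fun c v hc hv h1 h2 h3 h4 => ?_, fun v hv => ?_, ?_⟩, e4, e6⟩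
  · by_cases hv : v ∈ M ∪ T
    · change ty v ≠ O ∧ ty v ≠ X
      rcases hv with hv | hv
      · rw [e4 v hv]; simp
      · rw [e6 v hv]; simp
    · have := h.ne ⟨v, hv⟩
      rw [← e2] at this; exact this
  · change ty s = K at hs
    change ty (up Q.mate s) = K ∧ up Q.mate (up Q.mate s) = s ∧ G.Adj s (up Q.mate s)
    by_cases hv : s ∈ M
    · obtain ⟨a, b, c⟩ := hp s hv
      rw [e5 _ s hv, e5 _ _ a]
      exact ⟨e4 _ a, b, c⟩
    · obtain ⟨x, rfl⟩ : ∃ x : ↥R, x.1 = s :=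
        ⟨⟨s, fun a => a.elim hv (fun b => by rw [e6 s b] at hs; cases hs)⟩, rfl⟩
      rw [e2] at hs
      obtain ⟨a, b, c⟩ := h.mate x hs
      rw [e1, e1, e2, b]
      exact ⟨a, rfl, c⟩
  · change ty e = D at he
    obtain ⟨x, rfl⟩ := lift e (by rw [he]; simp)
    rw [e2] at he
    obtain ⟨a, b, c, d, e⟩ := h.fg x he
    change ty (up Q.f x) = A ∧ ty (up Q.g x) = A ∧ up Q.f x ≠ up Q.g x ∧ G.Adj x (up Q.f x) ∧
      G.Adj x (up Q.g x)
    rw [e1, e1, e2, e2]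
    exact ⟨a, b, fun e => c (Subtype.ext e), d, e⟩
  · change ty c = C at hc
    obtain ⟨x, rfl⟩ := lift c (by rw [hc]; simp)
    rw [e2] at hc
    obtain ⟨⟨a1, a2⟩, ⟨b1, b2⟩, c1, c2, c3, c4, c5, c6, c7⟩ := h.lr x hc
    simp only [e1, e2, a1, a2, b1, b2, c1, c2, true_and, and_self]
    exact ⟨fun e => c3 (Subtype.ext e), fun e => c4 (Subtype.ext e), fun e => c5 (Subtype.ext e),
      c6, c7⟩
  · change ty c = C at hc
    change ty v = C at hv
    obtain ⟨x, rfl⟩ := lift c (by rw [hc]; simp)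
    obtain ⟨y, rfl⟩ := lift v (by rw [hv]; simp)
    rw [e2] at hc hv
    simp only [e1] at h1 h3 h4
    obtain ⟨a1, a2, a3, a4, a5, a6, a7⟩ := h.m_ok x y hc hv (Subtype.ext h1)
      (fun e => h2 (congrArg Subtype.val e)) (fun e => h3 (congrArg Subtype.val e))
      (fun e => h4 (congrArg Subtype.val e))
    simp only [e1, e2, e3, a1, a2, a6, true_and]
    exact ⟨fun e => a3 (Subtype.ext e), fun e => a4 (Subtype.ext e), fun e => a5 (Subtype.ext e), a7⟩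
  · change ty v = F at hv
    by_cases hv' : v ∈ T
    · obtain ⟨_, a, a1, a2, a3⟩ := hT v hv'
      refine ⟨a, e4 a a1, a2, ?_⟩
      change G.Adj v (up Q.mate a)
      rw [e5 _ a a1]; exact a3
    obtain ⟨x, rfl⟩ : ∃ x : ↥R, x.1 = v :=
      ⟨⟨v, fun a => a.elim (fun b => by rw [e4 v b] at hv; cases hv) hv'⟩, rfl⟩
    rw [e2] at hv
    obtain ⟨a, a1, a2, a3⟩ := h.tri x hv
    refine ⟨a.1, (e2 a).trans a1, a2, ?_⟩
    change G.Adj x (up Q.mate a)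
    rw [e1]; exact a3
  · obtain ⟨π, hπ⟩ := h.hall
    refine ⟨up π, fun y hy => ?_⟩
    change ty y = A at hy
    obtain ⟨x, rfl⟩ := lift y (by rw [hy]; simp)
    rw [e2] at hy
    obtain ⟨a, b⟩ := hπ x hy
    change ty (up π x) = D ∧ up Q.f (up π x) = x
    rw [e1, e1, e2, b]
    exact ⟨a, rfl⟩

theorem phi_low : ∀ t u, t ≠ O → t ≠ X → u ≠ X →
    4 + (if t = K ∧ u = K then 1 else 0) + (if t = F ∨ u = F then 1 else 0) +
      (if t = F ∧ u = F then 5 else 0) ≤ phi false t u := by decide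

theorem ite_le {a b : Prop} [Decidable a] [Decidable b] (h : a → b) {k : ℤ} (hk : 0 ≤ k) :
    (if a then k else 0) ≤ if b then k else 0 := by
  by_cases x : a
  · rw [if_pos x, if_pos (h x)]
  · rw [if_neg x]; split_ifs <;> simp [hk]

theorem gen (G : Bool → SimpleGraph V) (Q : Bool → St V) (hQ : ∀ b, One (G b) (Q b))
    (W U Y : Finset V) (hW : ∀ v ∈ W, ∀ b, (Q b).ty v = K) (hU : ∀ v ∈ U, ∃ b, (Q b).ty v = F)
    (hY : ∀ v ∈ Y, ∀ b, (Q b).ty v = F) :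
    ∃ S : Finset V, 10 * S.card + W.card + U.card + 5 * Y.card ≤ 6 * Fintype.card V ∧
      ∀ b v, v ∈ S ∨ ∃ u ∈ S, (G b).Adj v u := by
  set P := comb Q with hP
  have w := comb_wf0 hQ
  obtain ⟨t1, m1, d1⟩ := w.del false ∅ ∅ ∅ ∅ (P.gr false).A (empty_subset _) (empty_subset _)
    (empty_subset _) (by simp) (by simp [hP]) (empty_subset _) (by simp) (by simp) (comb_feas hQ _)
  have eg : (P.upd t1 m1).gr true = P.gr true := St.gr_off d1.off (by simp)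
  obtain ⟨t, m, d2⟩ := d1.wf0.del true ∅ ∅ ∅ ∅ ((P.upd t1 m1).gr true).A (empty_subset _)
    (empty_subset _) (empty_subset _) (by simp) (by simp [hP]) (empty_subset _) (by simp) (by simp)
    (by rw [eg]; exact comb_feas hQ _)
  have wf : ((P.upd t1 m1).upd t m).WF := by
    refine ⟨d2.wf0, fun τ => ?_⟩
    cases τ
    · rw [St.gr_off d2.off (by simp)]; exact d1.sur
    · exact d2.sur
  obtain ⟨S, hS, hv⟩ := wf.good
  have hS' := d1.sat S (d2.sat S hS)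
  have nO : ∀ s, t s ≠ O := fun s a =>
    ((hQ _).ne _).1 ((St.ok_O _ _ (d1.tr s)).1 ((St.ok_O _ _ (d2.tr s)).1 a))
  have nX : ∀ s, t s ≠ X := fun s a => by
    have b1 := d1.newX s
    have b2 := d2.newX s a
    simp only [notMem_empty, or_self, imp_false, not_not] at b1 b2
    exact ((hQ _).ne _).2 (b1 b2)
  have keep : ∀ s : V × Bool, (P.ty s).live = false → t s = P.ty s := fun s a => by
    have b1 : t1 s = P.ty s := St.ok_dead _ _ (d1.tr s) a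
    exact (St.ok_dead _ _ (d2.tr s) (by rw [St.upd_ty, b1]; exact a)).trans b1
  have tK : ∀ v b, (Q b).ty v = K → t (v, b) = K := fun v b a =>
    (keep (v, b) (by change ((Q b).ty v).live = false; rw [a]; rfl)).trans a
  have tF : ∀ v b, (Q b).ty v = F → t (v, b) = F := fun v b a =>
    (keep (v, b) (by change ((Q b).ty v).live = false; rw [a]; rfl)).trans a
  have op : ∀ s, ((P.upd t1 m1).upd t m).opp s = false := by
    rintro ⟨v, b⟩; cases b <;> rfl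
  set T : Finset V := univ.filter (fun v => (v, false) ∈ S ∨ (v, true) ∈ S) with hT
  have h1 : ∑ s : V × Bool, (4 + (if s.1 ∈ W then 1 else 0) + (if s.1 ∈ U then 1 else 0) +
      (if s.1 ∈ Y then 5 else 0) : ℤ) ≤ ((P.upd t1 m1).upd t m).Phi :=
    sum_le_sum fun ⟨v, b⟩ _ => by
      rw [op]
      refine le_trans ?_ (phi_low _ _ (nO _) (nX _) (nX _))
      refine add_le_add (add_le_add (add_le_add le_rfl (ite_le (fun a => ?_) (by simp)))
        (ite_le (fun a => ?_) (by simp))) (ite_le (fun a => ?_) (by simp))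
      · exact ⟨tK _ _ (hW v a _), tK _ _ (hW v a _)⟩
      · obtain ⟨c, hc⟩ := hU v a
        cases b <;> cases c
        exacts [Or.inl (tF _ _ hc), Or.inr (tF _ _ hc), Or.inr (tF _ _ hc), Or.inl (tF _ _ hc)]
      · exact ⟨tF _ _ (hY v a _), tF _ _ (hY v a _)⟩
  have h2 : ((P.upd t1 m1).upd t m).val S = ∑ v : V, (20 - if v ∈ T then 20 else 0 : ℤ) := by
    unfold St.val
    rw [Fintype.sum_prod_type]
    refine sum_congr rfl fun v _ => ?_
    rw [Fintype.sum_bool]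
    unfold St.vs
    rw [op, op]
    simp only [St.upd_ty, nO, if_false, St.upd_lam, hP, comb, hT, mem_filter, mem_univ]
    by_cases a : (v, false) ∈ S <;> by_cases b : (v, true) ∈ S <;> simp [a, b]
  rw [sum_sub_distrib, sum_ite_mem, univ_inter] at h2
  rw [Fintype.sum_prod_type_right] at h1
  simp only [sum_const, card_univ, Fintype.card_bool, nsmul_eq_mul, sum_add_distrib,
    sum_ite_mem, univ_inter] at h1 h2
  refine ⟨T, by push_cast at h1; omega, fun b v => ?_⟩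
  have mT : ∀ u, (u, b) ∈ S → u ∈ T := fun u a => by
    cases b
    · exact mem_filter.2 ⟨mem_univ _, Or.inl a⟩
    · exact mem_filter.2 ⟨mem_univ _, Or.inr a⟩
  rcases comb_dom hQ hS' b v with a | ⟨u, a1, a2⟩
  · exact Or.inl (mT v a)
  · exact Or.inr ⟨u, mT u a1, a2⟩

theorem of_matching (G : SimpleGraph V) (M : G.Subgraph) (T : Set V) (hM : M.IsMatching)
    (hT : ∀ v ∈ T, v ∉ M.verts ∧ ∃ a b, M.Adj a b ∧ G.Adj v a ∧ G.Adj v b)
    (hG : ∀ v ∉ M.verts ∪ T, 2 ≤ (G.neighborSet v \ (M.verts ∪ T)).ncard) :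
    ∃ Q : St V, One G Q ∧ (∀ v ∈ M.verts, Q.ty v = K) ∧ ∀ v ∈ T, Q.ty v = F := by
  classical
  have ex : ∀ v, ∃ w, v ∈ M.verts → M.Adj v w := fun v => by
    by_cases a : v ∈ M.verts
    · obtain ⟨w, hw, _⟩ := hM a; exact ⟨w, fun _ => hw⟩
    · exact ⟨v, fun b => absurd b a⟩
  choose p hp using ex
  refine exists_one_match G M.verts T p (fun v hv => ?_) (fun v hv => ?_) (fun v hv => ?_)
  · have a := M.edge_vert (hp v hv).symm
    exact ⟨a, (hM a).unique (hp _ a) (hp v hv).symm, M.adj_sub (hp v hv)⟩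
  · obtain ⟨h0, a, b, h1, h2, h3⟩ := hT v hv
    have c := M.edge_vert h1
    exact ⟨h0, a, c, h2, (hM c).unique h1 (hp a c) ▸ h3⟩
  · obtain ⟨a, b, h1, h2, h3⟩ := (Set.one_lt_ncard_iff (Set.toFinite _)).1 (hG v hv)
    exact ⟨a, b, h3, h1.2, h2.2, h1.1, h2.1⟩

/-- Each graph is split into a matching, a set of vertices adjacent to both ends of a matching edge,
and a remainder of minimum degree at least two. -/
theorem result : ∀ (n : ℕ) (F₁ F₂ : SimpleGraph (Fin n)) (M₁ : F₁.Subgraph) (M₂ : F₂.Subgraph)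
    (T₁ T₂ : Set (Fin n)), M₁.IsMatching → M₂.IsMatching →
    (∀ v ∈ T₁, v ∉ M₁.verts ∧ ∃ a b, M₁.Adj a b ∧ F₁.Adj v a ∧ F₁.Adj v b) →
    (∀ v ∈ T₂, v ∉ M₂.verts ∧ ∃ a b, M₂.Adj a b ∧ F₂.Adj v a ∧ F₂.Adj v b) →
    (∀ v ∉ M₁.verts ∪ T₁, 2 ≤ (F₁.neighborSet v \ (M₁.verts ∪ T₁)).ncard) →
    (∀ v ∉ M₂.verts ∪ T₂, 2 ≤ (F₂.neighborSet v \ (M₂.verts ∪ T₂)).ncard) →
    ∃ S : Finset (Fin n), (∀ v ∉ S, (∃ u ∈ S, F₁.Adj v u) ∧ ∃ u ∈ S, F₂.Adj v u) ∧
      10 * S.card + (M₁.verts ∩ M₂.verts).ncard + (T₁ ∪ T₂).ncard + 5 * (T₁ ∩ T₂).ncard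
        ≤ 6 * n := by
  classical
  intro n F₁ F₂ M₁ M₂ T₁ T₂ m1 m2 t1 t2 h1 h2
  obtain ⟨Q1, a1, b1, c1⟩ := of_matching F₁ M₁ T₁ m1 t1 h1
  obtain ⟨Q2, a2, b2, c2⟩ := of_matching F₂ M₂ T₂ m2 t2 h2
  obtain ⟨S, c, d⟩ := gen (fun b => if b then F₂ else F₁) (fun b => if b then Q2 else Q1)
    (by intro b; cases b; exacts [a1, a2]) (M₁.verts ∩ M₂.verts).toFinset (T₁ ∪ T₂).toFinset
    (T₁ ∩ T₂).toFinset
    (by
      intro v hv b
      rw [Set.mem_toFinset] at hv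
      cases b; exacts [b1 v hv.1, b2 v hv.2])
    (by
      intro v hv
      rw [Set.mem_toFinset] at hv
      exact hv.elim (fun a => ⟨false, c1 v a⟩) (fun a => ⟨true, c2 v a⟩))
    (by
      intro v hv b
      rw [Set.mem_toFinset] at hv
      cases b; exacts [c1 v hv.1, c2 v hv.2])
  refine ⟨S, fun v hv => ⟨(d false v).resolve_left hv, (d true v).resolve_left hv⟩, ?_⟩
  rw [Set.ncard_eq_toFinset_card', Set.ncard_eq_toFinset_card', Set.ncard_eq_toFinset_card']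
  rwa [Fintype.card_fin] at c

/-- The upper bound of Q1 is the case of empty matchings and empty sets. -/
theorem case_Q1 (n : ℕ) (F₁ F₂ : SimpleGraph (Fin n)) (h1 : ∀ v, 2 ≤ (F₁.neighborSet v).ncard)
    (h2 : ∀ v, 2 ≤ (F₂.neighborSet v).ncard) :
    ∃ S : Finset (Fin n), (∀ v ∉ S, (∃ u ∈ S, F₁.Adj v u) ∧ ∃ u ∈ S, F₂.Adj v u) ∧
      5 * S.card ≤ 3 * n := by
  obtain ⟨S, a, b⟩ := result n F₁ F₂ ⊥ ⊥ ∅ ∅ (fun v hv => hv.elim) (fun v hv => hv.elim)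
    (by simp) (by simp) (by simpa using h1) (by simpa using h2)
  exact ⟨S, a, by omega⟩

end Pool.Agent.Results.MP_11624f_co.MatchedLeaves
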